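import Pool.Agent.Lib.Pecede9.Main

/-!
# Equitable degree partitions

If the degree partition of `G` is equitable and `H` has the same set of cards as `G`, then `G` and
`H` have the same degree sequence.
-/

set_option autoImplicit false
set_option linter.unusedSectionVars false

open Finset

namespace Pool.Agent.Lib.Pecede9E

open Pool.Agent.Lib.Pecede9

variable {V : Type} [Fintype V] [DecidableEq V]
variable {G H L : SimpleGraph V} {v w x y : V}

/-- sum of `g (deg y)` over the neighbours `y` of `v` -/
noncomputable def Wg (G : SimpleGraph V) (g : ℤ → ℤ) (v : V) : ℤ := ∑ y, a G v y * g (dg G y)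

/-- sum of `f (deg x)` over all vertices -/
noncomputable def Sm (G : SimpleGraph V) (f : ℤ → ℤ) : ℤ := ∑ x, f (dg G x)

/-- antiderivative -/
def anti (q : ℤ → ℤ) (k : ℤ) : ℤ := ∑ i ∈ range k.toNat, q i

theorem anti_succ (q : ℤ → ℤ) {k : ℤ} (hk : 0 ≤ k) : anti q (k + 1) = anti q k + q k := by
  obtain ⟨m, rfl⟩ := Int.eq_ofNat_of_zero_le hk
  unfold anti
  have h1 : ((m : ℤ) + 1).toNat = m + 1 := by omega
  have h2 : ((m : ℤ)).toNat = m := by omega
  rw [h1, h2, sum_range_succ]

theorem CS_formula (G : SimpleGraph V) (v : V) (q : ℤ → ℤ) :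
    CS G v (anti q) = Sm G (anti q) - anti q (dg G v) - Wg G (fun k => q (k - 1)) v := by
  have h1 : ∀ x, anti q (dg G x - a G x v) = anti q (dg G x) - a G v x * q (dg G x - 1) := by
    intro x
    rw [a_symm G x v]
    rcases a_01 G v x with h | h
    · rw [h]; simp
    · rw [h]
      have h2 := a_le_dg G x v
      rw [a_symm G x v, h] at h2
      have h3 := anti_succ q (k := dg G x - 1) (by linarith)
      rw [sub_add_cancel] at h3
      rw [h3]; ring
  have h2 : CS G v (anti q) + anti q (dg G v) = ∑ x, anti q (dg G x - a G x v) := by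
    unfold CS
    rw [← sum_erase_add (f := fun x => anti q (dg G x - a G x v)) univ (mem_univ v), a_self,
      sub_zero]
  rw [sum_congr rfl fun x _ => h1 x, sum_sub_distrib] at h2
  unfold Sm Wg
  linarith

/-- the neighbour degrees of corresponding vertices differ by a constant -/
theorem star (hn : 4 ≤ Fintype.card V) (h : SC G H) (g : ℤ → ℤ) :
    ∃ c : ℤ, ∀ v w, CI G v H w → Wg H g w = Wg G g v + c := by
  refine ⟨Sm H (anti fun k => g (k + 1)) - Sm G (anti fun k => g (k + 1)), fun v w hc => ?_⟩
  have h1 := CS_formula G v (fun k => g (k + 1))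
  have h2 := CS_formula H w (fun k => g (k + 1))
  have h3 : (fun k : ℤ => g (k - 1 + 1)) = g := by funext k; simp
  simp only [h3] at h1 h2
  rw [hc.cs, h2, h.deg hn hc] at h1
  linarith

/-! ### the number of walks of length three -/

/-- the adjacency matrix of the card -/
noncomputable def M (G : SimpleGraph V) (v x y : V) : ℤ :=
  a G x y - (if x = v then a G v y else 0) - (if y = v then a G x v else 0)

theorem M_ne (hx : x ≠ v) (hy : y ≠ v) : M G v x y = a G x y := by
  unfold M; rw [if_neg hx, if_neg hy]; ring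

theorem M_left : M G v v y = 0 := by
  unfold M
  by_cases hy : y = v
  · rw [hy]; simp [a_self]
  · rw [if_pos rfl, if_neg hy]; ring

theorem M_right : M G v x v = 0 := by
  unfold M
  by_cases hx : x = v
  · rw [hx]; simp [a_self]
  · rw [if_neg hx, if_pos rfl]; ring

theorem M_pi {π : V ≃ V} (h0 : π v = w)
    (h : ∀ x y, x ≠ v → y ≠ v → (G.Adj x y ↔ H.Adj (π x) (π y))) (x y : V) :
    M G v x y = M H w (π x) (π y) := by
  have hne : ∀ x, x ≠ v → π x ≠ w := fun x hx hc => hx (π.injective (hc.trans h0.symm))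
  by_cases hx : x = v
  · rw [hx, h0, M_left, M_left]
  · by_cases hy : y = v
    · rw [hy, h0, M_right, M_right]
    · rw [M_ne hx hy, M_ne (hne x hx) (hne y hy)]
      have h1 := h x y hx hy
      by_cases h2 : G.Adj x y
      · rw [a_one h2, a_one (h1.1 h2)]
      · rw [a_zero h2, a_zero fun h3 => h2 (h1.2 h3)]

/-- walks of length three in the card -/
noncomputable def P3 (G : SimpleGraph V) (v : V) : ℤ :=
  ∑ x, ∑ y, M G v x y * (∑ z, M G v x z) * (∑ z, M G v y z)

/-- closed walks of length three in the card -/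
noncomputable def T3 (G : SimpleGraph V) (v : V) : ℤ :=
  ∑ x, ∑ y, ∑ z, M G v x y * M G v y z * M G v z x

theorem sum_pi (π : V ≃ V) (f g : V → ℤ) (h : ∀ x, f x = g (π x)) : ∑ x, f x = ∑ x, g x := by
  rw [← Equiv.sum_comp π g]
  exact sum_congr rfl fun x _ => h x

theorem P3_eq (hc : CI G v H w) : P3 G v = P3 H w := by
  obtain ⟨π, h0, h1⟩ := hc.exists_equiv
  have hs : ∀ x, ∑ z, M G v x z = ∑ z, M H w (π x) z := fun x =>
    sum_pi π _ _ fun z => M_pi h0 h1 x z
  unfold P3
  refine sum_pi π _ _ fun x => sum_pi π _ _ fun y => ?_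
  rw [hs, hs, M_pi h0 h1 x y]

theorem T3_eq (hc : CI G v H w) : T3 G v = T3 H w := by
  obtain ⟨π, h0, h1⟩ := hc.exists_equiv
  unfold T3
  refine sum_pi π _ _ fun x => sum_pi π _ _ fun y => sum_pi π _ _ fun z => ?_
  rw [M_pi h0 h1 x y, M_pi h0 h1 y z, M_pi h0 h1 z x]

/-- closed walks of length three at `v` -/
noncomputable def tau (G : SimpleGraph V) (v : V) : ℤ := ∑ x, ∑ y, a G v x * a G x y * a G y v

/-- walks of length three from `v` -/
noncomputable def w3 (G : SimpleGraph V) (v : V) : ℤ := ∑ y, a G v y * Wg G (fun k => k) y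

theorem M_sum (G : SimpleGraph V) (v x : V) :
    ∑ z, M G v x z = dg G x - (if x = v then dg G v else 0) - a G v x := by
  unfold M
  simp only [sum_sub_distrib, sum_ite_eq', mem_univ, if_true]
  rw [a_symm G v x]
  by_cases hx : x = v
  · rw [if_pos hx]
    simp only [if_pos hx]
    rfl
  · rw [if_neg hx]
    simp only [if_neg hx, sum_const_zero]
    rfl

theorem P3_formula (G : SimpleGraph V) (v : V) :
    P3 G v = ∑ x, ∑ y, a G x y * dg G x * dg G y + tau G v - 2 * dg G v * Wg G (fun k => k) v
      - 2 * w3 G v + 2 * dg G v ^ 2 := by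
  set c : V → ℤ := fun x => dg G x - (if x = v then dg G v else 0) - a G v x with hc
  have hcv : c v = 0 := by simp [hc, a_self]
  have e1 : P3 G v = ∑ x, ∑ y, a G x y * c x * c y := by
    unfold P3
    refine sum_congr rfl fun x _ => sum_congr rfl fun y _ => ?_
    rw [M_sum, M_sum]
    change M G v x y * c x * c y = a G x y * c x * c y
    by_cases hx : x = v
    · rw [hx, hcv]; ring
    · by_cases hy : y = v
      · rw [hy, hcv]; ring
      · rw [M_ne hx hy]
  have e2 : ∀ x y, a G x y * c x * c y = a G x y * dg G x * dg G y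
      + a G v x * a G x y * a G y v
      - a G x y * dg G x * a G v y - a G x y * dg G y * a G v x
      - (if x = v then dg G v * (a G x y * c y) else 0)
      - (if y = v then dg G v * (a G x y * (dg G x - a G v x)) else 0) := by
    intro x y
    simp only [hc]
    rw [a_symm G y v]
    split_ifs <;> ring
  have e3 : ∑ x, ∑ y, a G x y * dg G x * a G v y = w3 G v := by
    rw [sum_comm]
    unfold w3 Wg
    refine sum_congr rfl fun y _ => ?_
    rw [mul_sum]
    refine sum_congr rfl fun x _ => ?_
    rw [a_symm G x y]; ring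
  have e4 : ∑ x, ∑ y, a G x y * dg G y * a G v x = w3 G v := by
    unfold w3 Wg
    refine sum_congr rfl fun x _ => ?_
    rw [mul_sum]
    exact sum_congr rfl fun y _ => by ring
  have sq : ∀ x y, a G x y * a G x y = a G x y := by
    intro x y
    rcases a_01 G x y with h | h <;> rw [h] <;> norm_num
  have e6 : ∑ x, a G x v * (dg G x - a G v x) = Wg G (fun k => k) v - dg G v := by
    unfold Wg
    have : ∀ x, a G x v * (dg G x - a G v x) = a G v x * dg G x - a G v x := by
      intro x
      rw [a_symm G x v, mul_sub, sq]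
    rw [sum_congr rfl fun x _ => this x, sum_sub_distrib]
    rfl
  have e5 : ∑ y, a G v y * c y = Wg G (fun k => k) v - dg G v := by
    rw [← e6]
    refine sum_congr rfl fun y _ => ?_
    simp only [hc]
    by_cases hy : y = v
    · rw [hy]; simp [a_self]
    · rw [if_neg hy, a_symm G v y]; ring
  rw [e1]
  simp only [e2, sum_sub_distrib, sum_add_distrib, e3, e4]
  have e7 : ∑ x, ∑ y, (if x = v then dg G v * (a G x y * c y) else 0) =
      dg G v * ∑ y, a G v y * c y := by
    rw [sum_comm]
    simp only [sum_ite_eq', mem_univ, if_true]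
    rw [mul_sum]
  have e8 : ∑ x, ∑ y, (if y = v then dg G v * (a G x y * (dg G x - a G v x)) else 0) =
      dg G v * ∑ x, a G x v * (dg G x - a G v x) := by
    simp only [sum_ite_eq', mem_univ, if_true]
    rw [mul_sum]
  rw [e7, e8, e5, e6]
  unfold tau
  ring

theorem T3_formula (G : SimpleGraph V) (v : V) :
    T3 G v = ∑ x, ∑ y, ∑ z, a G x y * a G y z * a G z x - 3 * tau G v := by
  have e1 : ∀ x y z, M G v x y * M G v y z * M G v z x = a G x y * a G y z * a G z x
      - (if x = v then a G x y * a G y z * a G z x else 0)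
      - (if y = v then a G x y * a G y z * a G z x else 0)
      - (if z = v then a G x y * a G y z * a G z x else 0) := by
    intro x y z
    by_cases hx : x = v
    · by_cases hy : y = v
      · rw [hx, hy]; simp [M_left, a_self]
      · by_cases hz : z = v
        · rw [hx, hz]; simp [M_left, a_self]
        · rw [if_pos hx, if_neg hy, if_neg hz, hx, M_left]; ring
    · by_cases hy : y = v
      · by_cases hz : z = v
        · rw [hy, hz]; simp [M_left, a_self]
        · rw [if_neg hx, if_pos hy, if_neg hz, hy, M_left]; ring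
      · by_cases hz : z = v
        · rw [if_neg hx, if_neg hy, if_pos hz, hz, M_left]; ring
        · rw [if_neg hx, if_neg hy, if_neg hz, M_ne hx hy, M_ne hy hz, M_ne hz hx]; ring
  unfold T3
  simp only [e1, sum_sub_distrib]
  have f1 : ∑ x, ∑ y, ∑ z, (if x = v then a G x y * a G y z * a G z x else 0) = tau G v := by
    rw [sum_eq_single v]
    · simp only [if_true]
      rfl
    · intro x _ hx
      simp [hx]
    · intro h; exact absurd (mem_univ v) h
  have f2 : ∑ x, ∑ y, ∑ z, (if y = v then a G x y * a G y z * a G z x else 0) = tau G v := by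
    rw [sum_comm, sum_eq_single v]
    · simp only [if_true]
      rw [sum_comm]
      unfold tau
      refine sum_congr rfl fun x _ => sum_congr rfl fun y _ => ?_
      ring
    · intro x _ hx
      simp [hx]
    · intro h; exact absurd (mem_univ v) h
  have f3 : ∑ x, ∑ y, ∑ z, (if z = v then a G x y * a G y z * a G z x else 0) = tau G v := by
    simp only [sum_ite_eq', mem_univ, if_true]
    unfold tau
    refine sum_congr rfl fun x _ => sum_congr rfl fun y _ => ?_
    ring
  rw [f1, f2, f3]
  ring

/-- the number of walks of length three from corresponding vertices -/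
theorem w3_shift (hn : 4 ≤ Fintype.card V) (h : SC G H) {κ : ℤ}
    (hκ : ∀ v w, CI G v H w → Wg H (fun k => k) w = Wg G (fun k => k) v + κ) :
    ∃ c : ℤ, ∀ v w, CI G v H w → 6 * (w3 H w - w3 G v) = c - 6 * κ * dg G v := by
  refine ⟨3 * (∑ x, ∑ y, a H x y * dg H x * dg H y - ∑ x, ∑ y, a G x y * dg G x * dg G y)
    + (∑ x, ∑ y, ∑ z, a H x y * a H y z * a H z x - ∑ x, ∑ y, ∑ z, a G x y * a G y z * a G z x),
    fun v w hc => ?_⟩
  have h1 := P3_eq hc
  have h2 := T3_eq hc
  rw [P3_formula, P3_formula, ← h.deg hn hc, hκ v w hc] at h1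
  rw [T3_formula, T3_formula] at h2
  linarith


/-! ### equitable degree partitions -/

/-- the degree partition is equitable -/
def Eqt (G : SimpleGraph V) : Prop := ∀ g : ℤ → ℤ, ∀ u v, dg G u = dg G v → Wg G g u = Wg G g v

theorem Eqt.fn (hG : Eqt G) (g : ℤ → ℤ) : ∃ ω : ℤ → ℤ, ∀ v, Wg G g v = ω (dg G v) := by
  classical
  refine ⟨fun k => if h : ∃ v, dg G v = k then Wg G g h.choose else 0, fun v => ?_⟩
  have h : ∃ u, dg G u = dg G v := ⟨v, rfl⟩
  simp only
  rw [dif_pos h]
  exact hG g _ _ h.choose_spec.symm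

theorem Eqt.fn_right (hn : 4 ≤ Fintype.card V) (h : SC G H) {g ω : ℤ → ℤ} {c : ℤ}
    (hω : ∀ v, Wg G g v = ω (dg G v)) (hc : ∀ v w, CI G v H w → Wg H g w = Wg G g v + c) (w : V) :
    Wg H g w = ω (dg H w) + c := by
  obtain ⟨v, hv⟩ := h.2 w
  rw [hc v w hv, hω, h.deg hn hv]

/-- the sum of the neighbour degrees is the same for corresponding vertices -/
theorem kappa (hn : 4 ≤ Fintype.card V) (h : SC G H) (hG : Eqt G) {p q : V}
    (hpq : dg G p ≠ dg G q) : ∀ v w, CI G v H w →
      Wg H (fun k => k) w = Wg G (fun k => k) v := by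
  obtain ⟨κ, hκ⟩ := star hn h (fun k => k)
  obtain ⟨c, hc⟩ := w3_shift hn h hκ
  obtain ⟨ω, hω⟩ := hG.fn (fun k => k)
  obtain ⟨c', hc'⟩ := star hn h ω
  have e1 : ∀ v, w3 G v = Wg G ω v := by
    intro v
    unfold w3
    rw [sum_congr rfl fun y _ => by rw [hω y]]
    rfl
  have e2 : ∀ w, w3 H w = Wg H ω w + κ * dg H w := by
    intro w
    unfold w3
    have : ∀ y, a H w y * Wg H (fun k => k) y = a H w y * ω (dg H y) + κ * a H w y := by
      intro y
      rw [Eqt.fn_right hn h hω hκ y]; ring
    rw [sum_congr rfl fun y _ => this y, sum_add_distrib, ← mul_sum]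
    rfl
  have e3 : ∀ v, 12 * κ * dg G v = c - 6 * c' := by
    intro v
    obtain ⟨w, hw⟩ := h.1 v
    have h1 := hc v w hw
    rw [e1, e2, hc' v w hw, ← h.deg hn hw] at h1
    linarith
  have e4 : 12 * κ * (dg G p - dg G q) = 0 := by
    have h1 := e3 p
    have h2 := e3 q
    linarith
  have e5 : κ = 0 := by
    rcases mul_eq_zero.1 e4 with h1 | h1
    · linarith
    · exact absurd (by linarith) hpq
  intro v w hw
  rw [hκ v w hw, e5, add_zero]

theorem Sm_iso (φ : L ≃g H) (f : ℤ → ℤ) : Sm L f = Sm H f := by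
  unfold Sm
  rw [← Equiv.sum_comp φ.toEquiv (fun y => f (dg H y))]
  exact sum_congr rfl fun x _ => by rw [dg_iso φ]; rfl

theorem SC.of_iso (h : SC G H) (φ : L ≃g H) : SC G L := by
  refine ⟨fun v => ?_, fun w => ?_⟩
  · obtain ⟨w, hw⟩ := h.1 v
    refine ⟨φ.symm w, hw.trans ?_⟩
    have := CI.of_iso φ (φ.symm w)
    rw [RelIso.apply_symm_apply] at this
    exact this.symm
  · obtain ⟨v, hv⟩ := h.2 (φ w)
    exact ⟨v, hv.trans (CI.of_iso φ w).symm⟩

/-- a step up or down of an antiderivative -/
theorem anti_step (q : ℤ → ℤ) {d d' : ℤ} (hd : 0 ≤ d) (hd' : 0 ≤ d')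
    (h : d' - d = 0 ∨ d' - d = 1 ∨ d' - d = -1) :
    anti q d' - anti q d = (d' - d) * q (min d d') := by
  rcases h with h | h | h
  · have : d' = d := by linarith
    rw [this]; ring
  · have h1 : d' = d + 1 := by linarith
    rw [h1, anti_succ q hd, min_eq_left (by linarith)]; ring
  · have h1 : d = d' + 1 := by linarith
    rw [h1, anti_succ q hd', min_eq_right (by linarith)]; ring

/-- indicator of `j` -/
def ind (j k : ℤ) : ℤ := if k = j then 1 else 0

/-- the key identity for a labelled pair -/
theorem pair (hn : 4 ≤ Fintype.card V) (h : SC G H) {ω ν : ℤ → ℤ} {c j : ℤ}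
    (hω : ∀ v, Wg G (fun k => k) v = ω (dg G v)) (hω' : ∀ v, Wg H (fun k => k) v = ω (dg H v))
    (hν : ∀ v, Wg G (ind j) v = ν (dg G v)) (hν' : ∀ v, Wg H (ind j) v = ν (dg H v) + c)
    (hv : Agree v G H) :
    Sm H (anti fun k => ν k + ν (k + 1)) - Sm G (anti fun k => ν k + ν (k + 1)) =
      (Sm H (anti fun k => (ω (k + 1) - ω k) * (ind j k + ind j (k + 1))) -
        Sm G (anti fun k => (ω (k + 1) - ω k) * (ind j k + ind j (k + 1)))) -
      dg G v * (Sm H (anti fun k => ind j k + ind j (k + 1)) -
        Sm G (anti fun k => ind j k + ind j (k + 1))) := by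
  have hE := h.edges hn
  have hCI : CI G v H v := CI.of_agree hv
  have hdv : dg G v = dg H v := h.deg hn hCI
  set δ : V → ℤ := fun x => dg H x - dg G x with hδ
  have δv : δ v = 0 := by simp only [hδ]; linarith
  have δne : ∀ x, x ≠ v → δ x = a H x v - a G x v := by
    intro x hx
    have : δ x = ∑ y, (a H x y - a G x y) := by
      rw [sum_sub_distrib]; rfl
    rw [this]
    refine (sum_eq_single v (fun y _ hy => ?_) (fun h => absurd (mem_univ v) h))
    rw [hv.a hx hy]; ring
  have δall : ∀ x, δ x = a H x v - a G x v := by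
    intro x
    by_cases hx : x = v
    · rw [hx, δv, a_self, a_self]; rfl
    · exact δne x hx
  have δ0 : ∑ x, δ x = 0 := by
    simp only [hδ, sum_sub_distrib]
    unfold E at hE
    linarith
  have δ3 : ∀ x, δ x = 0 ∨ δ x = 1 ∨ δ x = -1 := by
    intro x
    rw [δall]
    rcases a_01 G x v with h1 | h1 <;> rcases a_01 H x v with h2 | h2 <;> rw [h1, h2] <;> norm_num
  -- `A δ` outside `v`
  have A1 : ∀ x, x ≠ v → ∑ y, a G x y * δ y = ω (dg H x) - ω (dg G x) - δ x * dg G v := by
    intro x hx
    have h1 : Wg H (fun k => k) x - Wg G (fun k => k) x =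
        ∑ y, a G x y * δ y + δ x * dg G v := by
      unfold Wg
      rw [← sum_sub_distrib]
      have h2 : ∀ y, a H x y * dg H y - a G x y * dg G y =
          a G x y * δ y + (if y = v then δ x * dg G v else 0) := by
        intro y
        by_cases hy : y = v
        · rw [if_pos hy, hy, δv, δne x hx, hdv]; ring
        · rw [if_neg hy, hv.a hx hy]; simp only [hδ]; ring
      rw [sum_congr rfl fun y _ => h2 y, sum_add_distrib, sum_ite_eq', if_pos (mem_univ v)]
    rw [hω, hω'] at h1
    linarith
  have A2 : ∀ x, x ≠ v → ∑ y, a H x y * δ y = ∑ y, a G x y * δ y := by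
    intro x hx
    refine sum_congr rfl fun y _ => ?_
    by_cases hy : y = v
    · rw [hy, δv]; ring
    · rw [hv.a hx hy]
  have A3 : ∑ y, a H v y * δ y + ∑ y, a G v y * δ y = 0 := by
    rw [← sum_add_distrib]
    have h1 : ∀ y, a H v y * δ y + a G v y * δ y = a H v y - a G v y := by
      intro y
      rw [δall y, a_symm H y v, a_symm G y v]
      rcases a_01 G v y with h1 | h1 <;> rcases a_01 H v y with h2 | h2 <;> rw [h1, h2] <;>
        norm_num
    rw [sum_congr rfl fun y _ => h1 y, sum_sub_distrib]
    change dg H v - dg G v = 0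
    linarith
  -- the two sums over the classes
  set φ : V → ℤ := fun x => ω (dg H x) - ω (dg G x) - δ x * dg G v with hφ
  have L1 : ∀ x, ind j (dg G x) * ∑ y, a G x y * δ y + ind j (dg H x) * ∑ y, a H x y * δ y =
      φ x * (ind j (dg G x) + ind j (dg H x)) := by
    intro x
    by_cases hx : x = v
    · have h1 : φ x = 0 := by
        simp only [hφ]; rw [hx, δv, hdv]; ring
      rw [h1, hx, ← hdv, ← mul_add, add_comm (∑ y, a G v y * δ y), A3]; ring
    · rw [A2 x hx, A1 x hx]; ring
  have L2 : ∑ x, ind j (dg G x) * ∑ y, a G x y * δ y = ∑ y, δ y * ν (dg G y) := by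
    simp only [mul_sum]
    rw [sum_comm]
    refine sum_congr rfl fun y _ => ?_
    rw [← hν]
    unfold Wg
    rw [mul_sum]
    refine sum_congr rfl fun x _ => ?_
    rw [a_symm G x y]; ring
  have L3 : ∑ x, ind j (dg H x) * ∑ y, a H x y * δ y = ∑ y, δ y * ν (dg H y) := by
    have h1 : ∑ x, ind j (dg H x) * ∑ y, a H x y * δ y = ∑ y, δ y * (ν (dg H y) + c) := by
      simp only [mul_sum]
      rw [sum_comm]
      refine sum_congr rfl fun y _ => ?_
      rw [← hν']
      unfold Wg
      rw [mul_sum]
      refine sum_congr rfl fun x _ => ?_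
      rw [a_symm H x y]; ring
    rw [h1]
    simp only [mul_add, sum_add_distrib]
    rw [← sum_mul, δ0]; ring
  have L4 : ∑ y, δ y * (ν (dg G y) + ν (dg H y)) =
      ∑ x, φ x * (ind j (dg G x) + ind j (dg H x)) := by
    rw [← sum_congr rfl fun x _ => L1 x, sum_add_distrib, L2, L3, ← sum_add_distrib]
    exact sum_congr rfl fun y _ => by ring
  -- pointwise antiderivatives
  have hmin : ∀ x, (min (dg G x) (dg H x) = dg G x ∧ (δ x = 1 → dg H x = dg G x + 1)) ∨
      (min (dg G x) (dg H x) = dg H x ∧ δ x = -1 ∧ dg G x = dg H x + 1) := by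
    intro x
    rcases δ3 x with h1 | h1 | h1
    · left
      have h2 : dg H x = dg G x := by simp only [hδ] at h1; linarith
      exact ⟨by rw [h2, min_self], fun h3 => by rw [h1] at h3; norm_num at h3⟩
    · left
      have h2 : dg H x = dg G x + 1 := by simp only [hδ] at h1; linarith
      exact ⟨by rw [h2]; exact min_eq_left (by linarith), fun _ => h2⟩
    · right
      have h2 : dg G x = dg H x + 1 := by simp only [hδ] at h1; linarith
      exact ⟨by rw [h2]; exact min_eq_right (by linarith), h1, h2⟩
  have P : ∀ (q : ℤ → ℤ) (x : V), anti q (dg H x) - anti q (dg G x) =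
      δ x * q (min (dg G x) (dg H x)) := fun q x =>
    anti_step q (dg_nonneg G x) (dg_nonneg H x) (δ3 x)
  have S : ∀ q : ℤ → ℤ, Sm H (anti q) - Sm G (anti q) =
      ∑ x, δ x * q (min (dg G x) (dg H x)) := by
    intro q
    unfold Sm
    rw [← sum_sub_distrib]
    exact sum_congr rfl fun x _ => P q x
  have cases : ∀ x, δ x = 0 ∨
      (δ x = 1 ∧ dg H x = dg G x + 1 ∧ min (dg G x) (dg H x) = dg G x) ∨
      (δ x = -1 ∧ dg G x = dg H x + 1 ∧ min (dg G x) (dg H x) = dg H x) := by
    intro x
    rcases δ3 x with h1 | h1 | h1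
    · exact Or.inl h1
    · right; left
      have h2 : dg H x = dg G x + 1 := by simp only [hδ] at h1; linarith
      exact ⟨h1, h2, by rw [h2]; exact min_eq_left (by linarith)⟩
    · right; right
      have h2 : dg G x = dg H x + 1 := by simp only [hδ] at h1; linarith
      exact ⟨h1, h2, by rw [h2]; exact min_eq_right (by linarith)⟩
  have R1 : ∀ x, δ x * (ν (dg G x) + ν (dg H x)) =
      δ x * (fun k => ν k + ν (k + 1)) (min (dg G x) (dg H x)) := by
    intro x
    rcases cases x with h1 | ⟨_, h2, h3⟩ | ⟨_, h2, h3⟩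
    · rw [h1]; ring
    · rw [h3, h2]
    · rw [h3, h2]; ring
  have R2 : ∀ x, φ x * (ind j (dg G x) + ind j (dg H x)) =
      δ x * (fun k => (ω (k + 1) - ω k) * (ind j k + ind j (k + 1))) (min (dg G x) (dg H x)) -
      dg G v * (δ x * (fun k => ind j k + ind j (k + 1)) (min (dg G x) (dg H x))) := by
    intro x
    simp only [hφ]
    rcases cases x with h1 | ⟨h1, h2, h3⟩ | ⟨h1, h2, h3⟩
    · have h2 : dg H x = dg G x := by simp only [hδ] at h1; linarith
      rw [h1, h2]; ring
    · rw [h3, h2, h1]; ring
    · rw [h3, h2, h1]; ring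
  rw [S, S, S, ← sum_congr rfl fun x _ => R1 x, L4, sum_congr rfl fun x _ => R2 x,
    sum_sub_distrib, ← mul_sum]

/-! ### the degree sequences agree -/

theorem anti_ind (j : ℕ) {d : ℤ} (hd : 0 ≤ d) :
    anti (ind j) d = if (j : ℤ) < d then 1 else 0 := by
  obtain ⟨m, rfl⟩ := Int.eq_ofNat_of_zero_le hd
  unfold anti ind
  have h2 : ((m : ℤ)).toNat = m := by omega
  rw [h2]
  simp only [Nat.cast_inj, sum_ite_eq', mem_range, Nat.cast_lt]

theorem anti_neg (d : ℤ) : anti (ind (-1)) d = 0 := by
  unfold anti ind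
  refine sum_eq_zero fun i _ => if_neg ?_
  omega

theorem anti_add (q r : ℤ → ℤ) (d : ℤ) : anti (fun k => q k + r k) d = anti q d + anti r d := by
  unfold anti
  rw [sum_add_distrib]

theorem anti_expand (q : ℤ → ℤ) (N : ℕ) {d : ℤ} (hd : 0 ≤ d) (hN : d ≤ N) :
    anti q d = ∑ j ∈ range N, q j * anti (ind j) d := by
  have h1 : ∀ j ∈ range N, q j * anti (ind j) d = if j < d.toNat then q j else 0 := by
    intro j _
    rw [anti_ind j hd]
    by_cases h : (j : ℤ) < d
    · rw [if_pos h, if_pos (by omega)]; ring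
    · rw [if_neg h, if_neg (by omega)]; ring
  rw [sum_congr rfl h1, ← sum_filter]
  unfold anti
  refine sum_congr ?_ fun _ _ => rfl
  ext j
  simp only [mem_filter, mem_range]
  omega

theorem dg_le (G : SimpleGraph V) (x : V) : dg G x ≤ Fintype.card V := by
  unfold dg
  have : ∑ y, a G x y ≤ ∑ _y : V, (1 : ℤ) :=
    sum_le_sum fun y _ => by rcases a_01 G x y with h | h <;> rw [h]; norm_num
  simpa using this

/-- **equitable degree partition**: the degree sequences of `G` and `H` agree -/
theorem Sm_eq (hn : 4 ≤ Fintype.card V) (h : SC G H) (hG : Eqt G) (f : ℤ → ℤ) :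
    Sm G f = Sm H f := by
  by_cases hreg : ∀ p q, dg G p = dg G q
  · -- regular
    have : Nonempty V := Fintype.card_pos_iff.1 (by omega)
    obtain ⟨p⟩ := this
    have h1 : ∀ x, dg H x = dg G p := by
      intro x
      obtain ⟨v, hv⟩ := h.2 x
      rw [← h.deg hn hv]
      exact hreg v p
    unfold Sm
    exact sum_congr rfl fun x _ => by rw [h1 x, hreg x p]
  · push Not at hreg
    obtain ⟨p, q, hpq⟩ := hreg
    obtain ⟨ω, hω⟩ := hG.fn (fun k => k)
    have key : ∀ (j : ℤ) (ν : ℤ → ℤ), (∀ v, Wg G (ind j) v = ν (dg G v)) → ∀ v,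
        Sm H (anti fun k => ν k + ν (k + 1)) - Sm G (anti fun k => ν k + ν (k + 1)) =
        (Sm H (anti fun k => (ω (k + 1) - ω k) * (ind j k + ind j (k + 1))) -
          Sm G (anti fun k => (ω (k + 1) - ω k) * (ind j k + ind j (k + 1)))) -
        dg G v * (Sm H (anti fun k => ind j k + ind j (k + 1)) -
          Sm G (anti fun k => ind j k + ind j (k + 1))) := by
      intro j ν hν v
      obtain ⟨w, hw⟩ := h.1 v
      obtain ⟨L, ⟨φ⟩, hL⟩ := hw.exists_copy
      have hSC : SC G L := SC.of_iso h φ
      have hω' : ∀ v, Wg L (fun k => k) v = ω (dg L v) := by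
        intro w
        obtain ⟨v, hv⟩ := hSC.2 w
        rw [kappa hn hSC hG hpq v w hv, hω, hSC.deg hn hv]
      obtain ⟨c, hc⟩ := star hn hSC (ind j)
      have hν' := Eqt.fn_right hn hSC hν hc
      have := pair hn hSC hω hω' hν hν' hL
      rwa [Sm_iso φ, Sm_iso φ, Sm_iso φ] at this
    have Z : ∀ j : ℤ, Sm H (anti (ind j)) - Sm G (anti (ind j)) =
        - (Sm H (anti (ind (j - 1))) - Sm G (anti (ind (j - 1)))) := by
      intro j
      obtain ⟨ν, hν⟩ := hG.fn (ind j)
      have h1 := key j ν hν p
      have h2 := key j ν hν q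
      have h3 : (dg G p - dg G q) * (Sm H (anti fun k => ind j k + ind j (k + 1)) -
          Sm G (anti fun k => ind j k + ind j (k + 1))) = 0 := by
        rw [sub_mul]; linarith
      have h4 := (mul_eq_zero.1 h3).resolve_left (fun h5 => hpq (by linarith))
      have h5 : ∀ K : SimpleGraph V, Sm K (anti fun k => ind j k + ind j (k + 1)) =
          Sm K (anti (ind j)) + Sm K (anti (ind (j - 1))) := by
        intro K
        have h6 : (fun k => ind j (k + 1)) = ind (j - 1) := by
          funext k
          unfold ind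
          by_cases h7 : k + 1 = j
          · rw [if_pos h7, if_pos (by linarith)]
          · rw [if_neg h7, if_neg (by intro h8; exact h7 (by linarith))]
        unfold Sm
        rw [← sum_add_distrib]
        refine sum_congr rfl fun x _ => ?_
        rw [anti_add, h6]
      rw [h5, h5] at h4
      linarith
    have D : ∀ j : ℕ, Sm H (anti (ind j)) = Sm G (anti (ind j)) := by
      intro j
      induction j with
      | zero =>
        have h1 := Z 0
        have h2 : ∀ K : SimpleGraph V, Sm K (anti (ind (0 - 1))) = 0 := by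
          intro K
          unfold Sm
          exact sum_eq_zero fun x _ => anti_neg _
        rw [h2, h2] at h1
        push_cast
        linarith
      | succ j ih =>
        have h1 := Z ((j : ℤ) + 1)
        rw [add_sub_cancel_right, ih] at h1
        push_cast
        linarith
    have D2 : ∀ K : SimpleGraph V, Sm K f = Fintype.card V * f 0 +
        ∑ j ∈ range (Fintype.card V), (f (j + 1) - f j) * Sm K (anti (ind j)) := by
      intro K
      have h1 : ∀ x, f (dg K x) = f 0 +
          ∑ j ∈ range (Fintype.card V), (f (j + 1) - f j) * anti (ind j) (dg K x) := by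
        intro x
        rw [← anti_expand (fun k => f (k + 1) - f k) _ (dg_nonneg K x) (dg_le K x)]
        obtain ⟨m, hm⟩ := Int.eq_ofNat_of_zero_le (dg_nonneg K x)
        rw [hm]
        clear hm
        induction m with
        | zero => simp [anti]
        | succ m ih =>
          push_cast
          rw [anti_succ _ (by positivity)]
          linarith
      unfold Sm
      rw [sum_congr rfl fun x _ => h1 x, sum_add_distrib, sum_const, card_univ, nsmul_eq_mul,
        sum_comm]
      congr 1
      exact sum_congr rfl fun j _ => by rw [mul_sum]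
    rw [D2 G, D2 H]
    congr 1
    exact sum_congr rfl fun j _ => by rw [D j]

/-- the number of vertices of degree `k` -/
theorem card_deg_eq (hn : 4 ≤ Fintype.card V) (h : SC G H) (hG : Eqt G) (k : ℤ) :
    Set.ncard {x | dg G x = k} = Set.ncard {x | dg H x = k} := by
  have h1 : ∀ K : SimpleGraph V, (Set.ncard {x | dg K x = k} : ℤ) = Sm K (ind k) := by
    intro K
    have e1 : {x | dg K x = k} = ((univ.filter fun x => dg K x = k : Finset V) : Set V) := by
      ext x; simp
    rw [e1, Set.ncard_coe_finset, card_filter]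
    push_cast
    rfl
  have h2 := h1 G
  have h3 := h1 H
  rw [← Sm_eq hn h hG (ind k), ← h2] at h3
  exact_mod_cast h3.symm

/-- vertices of equal degree with isomorphic cards: the partition is equitable -/
theorem Eqt.of_cards (hn : 4 ≤ Fintype.card V) (hc : ∀ u v, dg G u = dg G v → CI G u G v) :
    Eqt G := by
  intro g u v huv
  have hSC : SC G G := ⟨fun v => ⟨v, CI.refl G v⟩, fun v => ⟨v, CI.refl G v⟩⟩
  obtain ⟨c, h⟩ := star hn hSC g
  have h1 := h u v (hc u v huv)
  have h2 := h u u (CI.refl G u)
  linarith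

/-- **cards with pairwise different numbers of edges** -/
theorem distinct (hn : 4 ≤ Fintype.card V) (h : SC G H)
    (hc : ∀ u v, dg G u = dg G v → CI G u G v) (v : V) :
    Set.ncard {u | CI G u G v} = Set.ncard {u | CI H u G v} := by
  have e1 : {u | CI G u G v} = {u | dg G u = dg G v} := by
    ext u
    refine ⟨fun hu => ?_, fun hu => hc u v hu⟩
    have := CI.deg hu
    simp only [Set.mem_setOf_eq]
    linarith
  have e2 : {u | CI H u G v} = {u | dg H u = dg G v} := by
    ext u
    refine ⟨fun hu => (h.deg hn hu.symm).symm, fun hu => ?_⟩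
    obtain ⟨v', hv'⟩ := h.2 u
    have h1 := h.deg hn hv'
    exact hv'.symm.trans (hc v' v (h1.trans hu))
  rw [e1, e2]
  exact card_deg_eq hn h (Eqt.of_cards hn hc) _

end Pool.Agent.Lib.Pecede9E
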